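import Pool.Agent.CFMC.Grammar

namespace Pool.Agent.Results.MP_88f7c7_lc.CFModelChecking

open Pool.Agent.CFMC

/-- There is a substitution `τ` on five letters, even a primitive one (every letter occurs in
`τ(a)` for every letter `a`), such that no algorithm decides, given a context-free grammar `G`
over the alphabet of `τ`, whether some word generated by `G` occurs in a point of `X_τ`. -/
theorem result : ∃ τ : Fin 5 → List (Fin 5), (∀ a b : Fin 5, b ∈ τ a) ∧
    ¬ ComputablePred (fun G : GrammarCode 5 =>
      ∃ w ∈ G.toCFG.language, w ∈ lang (subshift τ)) :=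
  ⟨tau, by decide, main⟩

end Pool.Agent.Results.MP_88f7c7_lc.CFModelChecking
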